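import Pool.Agent.H44.MH.RS2
import Pool.Graph.R_pool_sql_team_seeded_63374d34.N127.FM.A5

set_option autoImplicit false

open MeasureTheory Set
open scoped ENNReal Pointwise Matrix
open Pool.Agent.N127.FM H712MA.GB

namespace H44.MH

variable {n : ℕ}

/-- the splitting of coordinates -/
noncomputable abbrev sp (n : ℕ) : (Fin (n + 1) → ℝ) ≃ᵐ ℝ × (Fin n → ℝ) :=
  MeasurableEquiv.piFinSuccAbove (fun _ => ℝ) 0

lemma sp_apply (w : Fin (n + 1) → ℝ) : sp n w = (w 0, fun i => w i.succ) := by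
  ext i
  · rfl
  · simp [MeasurableEquiv.piFinSuccAbove, Fin.insertNthEquiv, Fin.tail]

lemma sp_symm (r : ℝ) (x : Fin n → ℝ) : (sp n).symm (r, x) = Fin.cons r x := by
  apply (sp n).injective
  rw [MeasurableEquiv.apply_symm_apply, sp_apply]
  ext i <;> simp

/-- the body in coordinates -/
def LB (K : Set (Fin n → ℝ)) : Set (Fin (n + 1) → ℝ) := (sp n) ⁻¹' LL K

lemma mem_LB {K : Set (Fin n → ℝ)} {w : Fin (n + 1) → ℝ} :
    w ∈ LB K ↔ |w 0| ≤ 1 ∧ ∃ a ∈ K, ∃ b ∈ K,
      (fun i : Fin n => w i.succ) = ((1 + w 0) / 2) • a - ((1 - w 0) / 2) • b := by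
  rw [LB, mem_preimage, sp_apply]; rfl

lemma vol_LB {K : Set (Fin n → ℝ)} (hK : IsCompact K) : volume (LB K) = volume (LL K) :=
  (volume_preserving_piFinSuccAbove (fun _ : Fin (n + 1) => ℝ) 0).measure_preimage
    (measurableSet_LL hK).nullMeasurableSet

lemma convex_LB {K : Set (Fin n → ℝ)} (hc : Convex ℝ K) : Convex ℝ (LB K) := by
  intro w hw u hu s t hs ht hst
  rw [mem_LB] at hw hu ⊢
  obtain ⟨h1, a, ha, b, hb, h2⟩ := hw
  obtain ⟨h3, a', ha', b', hb', h4⟩ := hu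
  obtain ⟨h1a, h1b⟩ := abs_le.1 h1
  obtain ⟨h3a, h3b⟩ := abs_le.1 h3
  have h0 : (s • w + t • u) 0 = s * w 0 + t * u 0 := by simp
  -- a combination of two points of `K` with nonnegative weights
  have key : ∀ p q : ℝ, 0 ≤ p → 0 ≤ q → ∀ a ∈ K, ∀ b ∈ K,
      ∃ c ∈ K, p • a + q • b = (p + q) • c := by
    intro p q hp hq a ha b hb
    rcases (add_nonneg hp hq).eq_or_lt with h | h
    · have hp0 : p = 0 := by linarith
      have hq0 : q = 0 := by linarith
      exact ⟨a, ha, by simp [hp0, hq0]⟩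
    · refine ⟨(p / (p + q)) • a + (q / (p + q)) • b, hc ha hb (by positivity) (by positivity)
        (by field_simp), ?_⟩
      rw [smul_add, smul_smul, smul_smul, mul_div_cancel₀ _ h.ne', mul_div_cancel₀ _ h.ne']
  obtain ⟨c, hcK, hc1⟩ := key (s * ((1 + w 0) / 2)) (t * ((1 + u 0) / 2))
    (mul_nonneg hs (by linarith)) (mul_nonneg ht (by linarith)) a ha a' ha'
  obtain ⟨d, hdK, hd1⟩ := key (s * ((1 - w 0) / 2)) (t * ((1 - u 0) / 2))
    (mul_nonneg hs (by linarith)) (mul_nonneg ht (by linarith)) b hb b' hb'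
  refine ⟨?_, c, hcK, d, hdK, ?_⟩
  · rw [h0, abs_le]
    constructor <;> nlinarith
  · have h5 : (fun i : Fin n => (s • w + t • u) i.succ) =
        s • (fun i : Fin n => w i.succ) + t • (fun i : Fin n => u i.succ) := by
      ext i; simp
    rw [h5, h2, h4, h0]
    have e1 : (1 + (s * w 0 + t * u 0)) / 2 = s * ((1 + w 0) / 2) + t * ((1 + u 0) / 2) := by
      have : (1 : ℝ) = s + t := hst.symm
      rw [show (1 + (s * w 0 + t * u 0)) / 2 = ((s + t) + (s * w 0 + t * u 0)) / 2 by rw [hst]]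
      ring
    have e2 : (1 - (s * w 0 + t * u 0)) / 2 = s * ((1 - w 0) / 2) + t * ((1 - u 0) / 2) := by
      rw [show (1 - (s * w 0 + t * u 0)) / 2 = ((s + t) - (s * w 0 + t * u 0)) / 2 by rw [hst]]
      ring
    rw [e1, e2, ← hc1, ← hd1, smul_sub, smul_sub, smul_smul, smul_smul, smul_smul, smul_smul]
    abel

lemma symm_LB {K : Set (Fin n → ℝ)} {w : Fin (n + 1) → ℝ} (hw : w ∈ LB K) : -w ∈ LB K := by
  rw [mem_LB] at hw ⊢
  obtain ⟨h1, a, ha, b, hb, h2⟩ := hw
  refine ⟨by simpa using h1, b, hb, a, ha, ?_⟩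
  have h3 : (fun i : Fin n => (-w) i.succ) = -(fun i : Fin n => w i.succ) := by
    ext i; simp
  rw [h3, h2, Pi.neg_apply, neg_sub, sub_neg_eq_add, ← sub_eq_add_neg]

lemma isCompact_LB {K : Set (Fin n → ℝ)} (hK : IsCompact K) : IsCompact (LB K) := by
  have h : LB K = (fun q : ℝ × (Fin n → ℝ) => (Fin.cons q.1 q.2 : Fin (n + 1) → ℝ)) '' LL K := by
    ext w
    constructor
    · intro hw
      refine ⟨sp n w, hw, ?_⟩
      have := sp_symm (sp n w).1 (sp n w).2
      exact this.symm.trans ((sp n).symm_apply_apply w)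
    · rintro ⟨q, hq, rfl⟩
      show sp n (Fin.cons q.1 q.2) ∈ LL K
      rw [show (Fin.cons q.1 q.2 : Fin (n + 1) → ℝ) = (sp n).symm q from (sp_symm q.1 q.2).symm,
        MeasurableEquiv.apply_symm_apply]
      exact hq
  rw [h]
  apply (isCompact_LL hK).image
  apply continuous_pi
  intro i
  refine Fin.cases ?_ (fun j => ?_) i
  · simpa using continuous_fst
  · simp only [Fin.cons_succ]
    exact (continuous_apply j).comp continuous_snd

lemma int_LB {K : Set (Fin n → ℝ)} (hK : IsCompact K) (hc : Convex ℝ K)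
    (hi : (interior K).Nonempty) : (interior (LB K)).Nonempty := by
  apply interior_nonempty_of_convex (convex_LB hc)
  -- positive volume: a lower bound through the sections
  rw [vol_LB hK]
  obtain ⟨z, hz⟩ := hi
  have hm := measurableSet_LL hK
  have hV : volume K ≠ 0 :=
    (Measure.measure_pos_of_nonempty_interior volume ⟨z, hz⟩).ne'
  have hzK : z ∈ K := interior_subset hz
  intro h0
  rw [show (volume : Measure (ℝ × (Fin n → ℝ))) = (volume : Measure ℝ).prod volume from rfl,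
    Measure.measure_prod_null hm] at h0
  have h1 : volume {r : ℝ | ¬ volume (Prod.mk r ⁻¹' LL K) = 0} = 0 := h0
  have h2 : Ioo (-1 : ℝ) 1 ⊆ {r : ℝ | ¬ volume (Prod.mk r ⁻¹' LL K) = 0} := by
    intro r hr h3
    have hα : 0 < (1 + r) / 2 := by linarith [hr.1]
    have h4 : volume ((fun x => x + (((1 - r) / 2) • z)) ⁻¹'
        {x : Fin n → ℝ | ((1 + r) / 2)⁻¹ • x ∈ K}) = 0 := by
      apply measure_mono_null _ h3
      intro x hx
      have hx1 : ((1 + r) / 2)⁻¹ • (x + (((1 - r) / 2) • z)) ∈ K := hx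
      refine ⟨abs_le.2 ⟨hr.1.le, hr.2.le⟩, _, hx1, z, hzK, ?_⟩
      show x = ((1 + r) / 2) • ((1 + r) / 2)⁻¹ • (x + (((1 - r) / 2) • z)) - ((1 - r) / 2) • z
      rw [smul_smul, mul_inv_cancel₀ hα.ne', one_smul, add_sub_cancel_right]
    rw [measure_preimage_add_right, vol_pre K hα] at h4
    rcases mul_eq_zero.1 h4 with h5 | h5
    · rw [ENNReal.ofReal_eq_zero] at h5
      exact absurd h5 (not_le.2 (by positivity))
    · exact hV h5
  have h3 := measure_mono_null h2 h1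
  rw [Real.volume_Ioo, ENNReal.ofReal_eq_zero] at h3
  norm_num at h3

lemma sBody_LB {K : Set (Fin n → ℝ)} (hK : IsCompact K) (hc : Convex ℝ K)
    (hi : (interior K).Nonempty) : SBody (LB K) :=
  ⟨isCompact_LB hK, convex_LB hc, int_LB hK hc hi, fun _ hw => symm_LB hw⟩

/-- the support function -/
noncomputable def hh (K : Set (Fin n → ℝ)) (y : Fin n → ℝ) : ℝ :=
  sSup ((fun x : Fin n → ℝ => ∑ i, x i * y i) '' K)

lemma bdd_hh {K : Set (Fin n → ℝ)} (hK : IsCompact K) (y : Fin n → ℝ) :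
    BddAbove ((fun x : Fin n → ℝ => ∑ i, x i * y i) '' K) :=
  (hK.image (by fun_prop)).bddAbove

lemma continuous_hh {K : Set (Fin n → ℝ)} (hK : IsCompact K) : Continuous (hh K) := by
  have h := IsCompact.continuous_sSup (f := fun (y x : Fin n → ℝ) => ∑ i, x i * y i) hK
    (by simp only [Function.HasUncurry.uncurry, id]; fun_prop)
  exact h

lemma exists_hh {K : Set (Fin n → ℝ)} (hK : IsCompact K) (hne : K.Nonempty) (y : Fin n → ℝ) :
    ∃ a ∈ K, ∑ i, a i * y i = hh K y := by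
  obtain ⟨a, ha, h⟩ := hK.exists_isMaxOn hne
    (f := fun x : Fin n → ℝ => ∑ i, x i * y i) (by fun_prop)
  refine ⟨a, ha, le_antisymm (le_csSup (bdd_hh hK y) ⟨a, ha, rfl⟩) ?_⟩
  apply csSup_le (hne.image _)
  rintro _ ⟨x, hx, rfl⟩
  exact h hx

lemma pol_LB_le {K : Set (Fin n → ℝ)} (hK : IsCompact K) (hne : K.Nonempty)
    (s : ℝ) (y : Fin n → ℝ) :
    pol (ind (LB K)) (Fin.cons s y) ≤
      Real.exp (-((hh K y + hh K (-y)) / 2)) * Real.exp (-|s + (hh K y - hh K (-y)) / 2|) := by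
  rw [← Real.exp_add]
  obtain ⟨a, ha, hae⟩ := exists_hh hK hne y
  obtain ⟨b, hb, hbe⟩ := exists_hh hK hne (-y)
  have hA : (Fin.cons 1 a : Fin (n + 1) → ℝ) ∈ LB K := by
    rw [mem_LB]
    refine ⟨by simp, a, ha, a, ha, ?_⟩
    ext i
    simp
  have hB : (Fin.cons (-1) (-b) : Fin (n + 1) → ℝ) ∈ LB K := by
    rw [mem_LB]
    refine ⟨by simp, b, hb, b, hb, ?_⟩
    ext i
    simp
  have h1 := pol_le (f := ind (LB K)) (ind_pos.2 hA) (Fin.cons s y)
  have h2 := pol_le (f := ind (LB K)) (ind_pos.2 hB) (Fin.cons s y)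
  rw [ind_of_mem hA, div_one] at h1
  rw [ind_of_mem hB, div_one] at h2
  have e1 : (Fin.cons 1 a : Fin (n + 1) → ℝ) ⬝ᵥ Fin.cons s y = s + hh K y := by
    rw [dotProduct, Fin.sum_univ_succ]
    simp [hae]
  have e2 : (Fin.cons (-1) (-b) : Fin (n + 1) → ℝ) ⬝ᵥ Fin.cons s y = -s + hh K (-y) := by
    rw [dotProduct, Fin.sum_univ_succ]
    simp [← hbe]
  rw [e1] at h1
  rw [e2] at h2
  rcases le_total 0 (s + (hh K y - hh K (-y)) / 2) with h | h
  · rw [abs_of_nonneg h]
    refine h1.trans (Real.exp_le_exp.2 ?_)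
    linarith
  · rw [abs_of_nonpos h]
    refine h2.trans (Real.exp_le_exp.2 ?_)
    linarith

end H44.MH
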