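import Pool.Agent.H44.MH.Body

set_option autoImplicit false

open MeasureTheory Set
open scoped ENNReal Pointwise Matrix
open Pool.Agent.N127.FM H712MA.GB

namespace H44.MH

variable {n : ℕ}

lemma lint_exp_abs (c : ℝ) : ∫⁻ s : ℝ, ENNReal.ofReal (Real.exp (-|s + c|)) = 2 := by
  rw [lintegral_add_right_eq_self (fun s : ℝ => ENNReal.ofReal (Real.exp (-|s|))) c]
  have hint : Integrable fun s : ℝ => Real.exp (-|s|) := by
    simpa using integrable_expabs one_pos
  rw [← ofReal_integral_eq_lintegral_ofReal hint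
    (Filter.Eventually.of_forall fun s => (Real.exp_pos _).le)]
  rw [integral_comp_abs (f := fun x => Real.exp (-x)), integral_exp_neg_Ioi_zero]
  norm_num

lemma lint_pol_le' {K : Set (Fin n → ℝ)} (hK : IsCompact K) (hc : Convex ℝ K)
    (hi : (interior K).Nonempty) :
    ENNReal.ofReal (∫ u, pol (ind (LB K)) u) ≤
      2 * ∫⁻ y : Fin n → ℝ, ENNReal.ofReal (Real.exp (-((hh K y + hh K (-y)) / 2))) := by
  have hB := sBody_LB hK hc hi
  have hne : K.Nonempty := hi.mono interior_subset
  have hcont := continuous_hh hK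
  rw [ofReal_integral_eq_lintegral_ofReal (pol_integrable (ind_elc hB))
    (Filter.Eventually.of_forall fun u => pol_nonneg u)]
  have h1 : ∫⁻ u, ENNReal.ofReal (pol (ind (LB K)) u) =
      ∫⁻ q : ℝ × (Fin n → ℝ), ENNReal.ofReal (pol (ind (LB K)) ((sp n).symm q)) :=
    ((volume_preserving_piFinSuccAbove (fun _ : Fin (n + 1) => ℝ) 0).symm.lintegral_comp_emb
      (sp n).symm.measurableEmbedding (fun u => ENNReal.ofReal (pol (ind (LB K)) u))).symm
  rw [h1]
  have h2 : ∫⁻ q : ℝ × (Fin n → ℝ), ENNReal.ofReal (pol (ind (LB K)) ((sp n).symm q)) ≤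
      ∫⁻ q : ℝ × (Fin n → ℝ), ENNReal.ofReal (Real.exp (-((hh K q.2 + hh K (-q.2)) / 2))) *
        ENNReal.ofReal (Real.exp (-|q.1 + (hh K q.2 - hh K (-q.2)) / 2|)) := by
    apply lintegral_mono
    intro q
    show ENNReal.ofReal (pol (ind (LB K)) ((sp n).symm (q.1, q.2))) ≤
      ENNReal.ofReal (Real.exp (-((hh K q.2 + hh K (-q.2)) / 2))) *
        ENNReal.ofReal (Real.exp (-|q.1 + (hh K q.2 - hh K (-q.2)) / 2|))
    rw [sp_symm, ← ENNReal.ofReal_mul (Real.exp_pos _).le]
    exact ENNReal.ofReal_le_ofReal (pol_LB_le hK hne q.1 q.2)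
  refine h2.trans ?_
  rw [show (volume : Measure (ℝ × (Fin n → ℝ))) = (volume : Measure ℝ).prod volume from rfl,
    lintegral_prod_symm]
  · have h3 : ∀ y : Fin n → ℝ, ∫⁻ s : ℝ,
        ENNReal.ofReal (Real.exp (-((hh K (s, y).2 + hh K (-(s, y).2)) / 2))) *
        ENNReal.ofReal (Real.exp (-|(s, y).1 + (hh K (s, y).2 - hh K (-(s, y).2)) / 2|)) =
        ENNReal.ofReal (Real.exp (-((hh K y + hh K (-y)) / 2))) * 2 := by
      intro y
      show ∫⁻ s : ℝ, ENNReal.ofReal (Real.exp (-((hh K y + hh K (-y)) / 2))) *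
        ENNReal.ofReal (Real.exp (-|s + (hh K y - hh K (-y)) / 2|)) = _
      rw [lintegral_const_mul' _ _ ENNReal.ofReal_ne_top, lint_exp_abs]
    simp_rw [h3]
    rw [lintegral_mul_const' _ _ (by norm_num), mul_comm]
  · apply Measurable.aemeasurable
    have a1 : Measurable fun q : ℝ × (Fin n → ℝ) =>
        ENNReal.ofReal (Real.exp (-((hh K q.2 + hh K (-q.2)) / 2))) := by
      apply Measurable.ennreal_ofReal
      apply Continuous.measurable
      fun_prop
    have a2 : Measurable fun q : ℝ × (Fin n → ℝ) =>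
        ENNReal.ofReal (Real.exp (-|q.1 + (hh K q.2 - hh K (-q.2)) / 2|)) := by
      apply Measurable.ennreal_ofReal
      apply Continuous.measurable
      fun_prop
    exact a1.mul a2

lemma lint_pol_le {K : Set (Fin n → ℝ)} (hK : IsCompact K) (hc : Convex ℝ K)
    (hi : (interior K).Nonempty) :
    ENNReal.ofReal (∫ u, pol (ind (LB K)) u) ≤
      2 * ∫⁻ y : Fin n → ℝ, ENNReal.ofReal (Real.exp (-hh K y)) := by
  refine (lint_pol_le' hK hc hi).trans ?_
  have hcont := continuous_hh hK
  rw [mul_comm, ← lintegral_mul_const' _ _ (by norm_num)]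
  have h4 : ∀ y : Fin n → ℝ, ENNReal.ofReal (Real.exp (-((hh K y + hh K (-y)) / 2))) * 2 ≤
      ENNReal.ofReal (Real.exp (-hh K y)) + ENNReal.ofReal (Real.exp (-hh K (-y))) := by
    intro y
    rw [← ENNReal.ofReal_add (Real.exp_pos _).le (Real.exp_pos _).le,
      show (2 : ℝ≥0∞) = ENNReal.ofReal 2 by norm_num, ← ENNReal.ofReal_mul (Real.exp_pos _).le]
    apply ENNReal.ofReal_le_ofReal
    have e1 : Real.exp (-hh K y) = Real.exp (-hh K y / 2) ^ 2 := by
      rw [← Real.exp_nat_mul]; congr 1; push_cast; ring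
    have e2 : Real.exp (-hh K (-y)) = Real.exp (-hh K (-y) / 2) ^ 2 := by
      rw [← Real.exp_nat_mul]; congr 1; push_cast; ring
    have e3 : Real.exp (-((hh K y + hh K (-y)) / 2)) =
        Real.exp (-hh K y / 2) * Real.exp (-hh K (-y) / 2) := by
      rw [← Real.exp_add]; congr 1; ring
    rw [e1, e2, e3]
    nlinarith [sq_nonneg (Real.exp (-hh K y / 2) - Real.exp (-hh K (-y) / 2))]
  refine (lintegral_mono h4).trans (le_of_eq ?_)
  have hm : Measurable fun y : Fin n → ℝ => ENNReal.ofReal (Real.exp (-hh K y)) :=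
    (Real.continuous_exp.comp hcont.neg).measurable.ennreal_ofReal
  rw [lintegral_add_left hm, lintegral_neg_eq_self
    (fun y : Fin n → ℝ => ENNReal.ofReal (Real.exp (-hh K y))), two_mul]

/-- **the lower bound of the Mahler volume in every position** -/
theorem mahler_general {K : Set (Fin n → ℝ)} (hn : 1 ≤ n) (hK : IsCompact K) (hc : Convex ℝ K)
    (hi : (interior K).Nonempty) :
    ((n : ℝ≥0∞) + 1) * 2 ^ n ≤
      volume K * ∫⁻ y : Fin n → ℝ, ENNReal.ofReal (Real.exp (-hh K y)) := by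
  have hV : volume K ≠ 0 := (Measure.measure_pos_of_nonempty_interior volume hi).ne'
  have hVt : volume K ≠ ∞ := hK.measure_lt_top.ne
  have hB := sBody_LB hK hc hi
  set I : ℝ≥0∞ := ∫⁻ y : Fin n → ℝ, ENNReal.ofReal (Real.exp (-hh K y)) with hI
  have h1 := functional_mahler (ind_elc hB)
  rw [integral_ind hB, vol_LB hK] at h1
  have h2 := lint_pol_le hK hc hi
  have h3 := vol_LL hn hK hc hV
  set l : ℝ := (volume (LL K)).toReal with hl
  have hl0 : 0 ≤ l := ENNReal.toReal_nonneg
  set v : ℝ := (volume K).toReal with hv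
  have hv0 : 0 < v := ENNReal.toReal_pos hV hVt
  have hVv : volume K = ENNReal.ofReal v := (ENNReal.ofReal_toReal hVt).symm
  set P : ℝ := ∫ u, pol (ind (LB K)) u with hP
  have h4 : ENNReal.ofReal ((n + 1) * 4 ^ (n + 1)) ≤
      ENNReal.ofReal (2 ^ (n + 1) * v) * (2 * I) := by
    calc ENNReal.ofReal ((n + 1) * 4 ^ (n + 1)) ≤ ENNReal.ofReal ((2 ^ (n + 1) * v) * P) := by
          apply ENNReal.ofReal_le_ofReal
          have hP0 : 0 ≤ P := integral_nonneg fun u => pol_nonneg u
          calc ((n : ℝ) + 1) * 4 ^ (n + 1) ≤ (n + 1) * (l * P) := by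
                gcongr
            _ = (l * (n + 1)) * P := by ring
            _ ≤ (2 ^ (n + 1) * v) * P := by gcongr
      _ = ENNReal.ofReal (2 ^ (n + 1) * v) * ENNReal.ofReal P :=
          ENNReal.ofReal_mul (by positivity)
      _ ≤ _ := by gcongr
  have h5 : ENNReal.ofReal (2 ^ (n + 1) * v) * (2 * I) =
      2 ^ (n + 2) * (volume K * I) := by
    rw [hVv, ENNReal.ofReal_mul (by positivity), ENNReal.ofReal_pow (by norm_num)]
    rw [show ENNReal.ofReal 2 = 2 by norm_num]
    ring
  have h6 : ENNReal.ofReal ((n + 1) * 4 ^ (n + 1)) = 2 ^ (n + 2) * (((n : ℝ≥0∞) + 1) * 2 ^ n) := by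
    rw [ENNReal.ofReal_mul (by positivity), ENNReal.ofReal_pow (by norm_num),
      ENNReal.ofReal_add (by positivity) (by norm_num), ENNReal.ofReal_natCast,
      ENNReal.ofReal_one, show ENNReal.ofReal 4 = 2 ^ 2 by norm_num, ← pow_mul]
    ring
  rw [h5, h6] at h4
  exact (ENNReal.mul_le_mul_iff_right (by positivity) (by finiteness)).1 h4

/-- comparison of the `L^p` support function with the support function -/
theorem mp_ge {K : Set (Fin n → ℝ)} (hK : IsCompact K) (hi : (interior K).Nonempty)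
    {p : ℝ} (hp : 0 < p) (y : Fin n → ℝ) :
    Real.exp (-hh K y) ≤
      ((∫ x in K, Real.exp (p * ∑ i, x i * y i)) / (volume K).toReal) ^ (-(1 / p)) := by
  have hV : volume K ≠ 0 := (Measure.measure_pos_of_nonempty_interior volume hi).ne'
  have hVt : volume K ≠ ∞ := hK.measure_lt_top.ne
  have hv0 : 0 < (volume K).toReal := ENNReal.toReal_pos hV hVt
  have hcont : Continuous fun x : Fin n → ℝ => Real.exp (p * ∑ i, x i * y i) := by fun_prop
  have hint : IntegrableOn (fun x : Fin n → ℝ => Real.exp (p * ∑ i, x i * y i)) K :=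
    hcont.continuousOn.integrableOn_compact hK
  have hpos : 0 < ∫ x in K, Real.exp (p * ∑ i, x i * y i) := by
    rw [setIntegral_pos_iff_support_of_nonneg_ae
      (Filter.Eventually.of_forall fun x => (Real.exp_pos _).le) hint]
    have : (Function.support fun x : Fin n → ℝ => Real.exp (p * ∑ i, x i * y i)) ∩ K = K := by
      apply inter_eq_self_of_subset_right
      intro x _
      exact (Real.exp_pos _).ne'
    rw [this]
    exact pos_iff_ne_zero.2 hV
  have hle : ∫ x in K, Real.exp (p * ∑ i, x i * y i) ≤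
      Real.exp (p * hh K y) * (volume K).toReal := by
    have h1 : ∫ x in K, Real.exp (p * ∑ i, x i * y i) ≤ ∫ _ in K, Real.exp (p * hh K y) := by
      apply setIntegral_mono_on hint _ hK.isClosed.measurableSet
      · intro x hx
        apply Real.exp_le_exp.2
        exact mul_le_mul_of_nonneg_left (le_csSup (bdd_hh hK y) ⟨x, hx, rfl⟩) hp.le
      · exact continuousOn_const.integrableOn_compact hK
    refine h1.trans (le_of_eq ?_)
    rw [setIntegral_const, smul_eq_mul, mul_comm]
    rfl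
  have h2 : (∫ x in K, Real.exp (p * ∑ i, x i * y i)) / (volume K).toReal ≤
      Real.exp (p * hh K y) := by
    rwa [div_le_iff₀ hv0]
  have h3 := Real.rpow_le_rpow_of_nonpos (div_pos hpos hv0) h2
    (show -(1 / p) ≤ 0 by rw [neg_nonpos]; positivity)
  refine le_trans (le_of_eq ?_) h3
  rw [← Real.exp_mul]
  congr 1
  field_simp

end H44.MH
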