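import Pool.Agent.H44.MH.Main

set_option autoImplicit false

open MeasureTheory Set
open scoped ENNReal Pointwise Matrix
open Pool.Agent.N127.FM H712MA.GB

namespace H44.MH

variable {n : ℕ}

/-- the polar of the difference body -/
def dpol (K : Set (Fin n → ℝ)) : Set (Fin n → ℝ) :=
  {y | ∀ a ∈ K, ∀ b ∈ K, ∑ i, (a i - b i) * y i ≤ 1}

/-- half of the difference body -/
def DB (K : Set (Fin n → ℝ)) : Set (Fin n → ℝ) := (1 / 2 : ℝ) • (K - K)

lemma mem_DB {K : Set (Fin n → ℝ)} {x : Fin n → ℝ} :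
    x ∈ DB K ↔ ∃ a ∈ K, ∃ b ∈ K, x = (1 / 2 : ℝ) • (a - b) := by
  constructor
  · rintro ⟨_, ⟨a, ha, b, hb, rfl⟩, rfl⟩
    exact ⟨a, ha, b, hb, rfl⟩
  · rintro ⟨a, ha, b, hb, rfl⟩
    exact ⟨_, ⟨a, ha, b, hb, rfl⟩, rfl⟩

lemma sBody_DB {K : Set (Fin n → ℝ)} (hK : IsCompact K) (hc : Convex ℝ K)
    (hi : (interior K).Nonempty) : SBody (DB K) := by
  have hcv : Convex ℝ (DB K) := (hc.sub hc).smul _
  have hcomp : IsCompact (DB K) := by
    have h : DB K = (fun q : (Fin n → ℝ) × (Fin n → ℝ) => (1 / 2 : ℝ) • (q.1 - q.2)) ''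
        (K ×ˢ K) := by
      ext x
      rw [mem_DB]
      constructor
      · rintro ⟨a, ha, b, hb, rfl⟩
        exact ⟨(a, b), ⟨ha, hb⟩, rfl⟩
      · rintro ⟨q, ⟨ha, hb⟩, rfl⟩
        exact ⟨q.1, ha, q.2, hb, rfl⟩
    rw [h]
    exact (hK.prod hK).image (by fun_prop)
  refine ⟨hcomp, hcv, ?_, ?_⟩
  · apply interior_nonempty_of_convex hcv
    obtain ⟨z, hz⟩ := hi
    have hV : volume K ≠ 0 := (Measure.measure_pos_of_nonempty_interior volume ⟨z, hz⟩).ne'
    intro h0
    have h1 : volume ((fun x => x + ((1 / 2 : ℝ) • z)) ⁻¹'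
        {x : Fin n → ℝ | (1 / 2 : ℝ)⁻¹ • x ∈ K}) = 0 := by
      apply measure_mono_null _ h0
      intro x hx
      have hx1 : (1 / 2 : ℝ)⁻¹ • (x + ((1 / 2 : ℝ) • z)) ∈ K := hx
      refine mem_DB.2 ⟨_, hx1, z, interior_subset hz, ?_⟩
      ext i
      simp
    rw [measure_preimage_add_right, vol_pre K (by norm_num)] at h1
    rcases mul_eq_zero.1 h1 with h5 | h5
    · rw [ENNReal.ofReal_eq_zero] at h5
      exact absurd h5 (not_le.2 (by positivity))
    · exact hV h5
  · intro x hx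
    obtain ⟨a, ha, b, hb, rfl⟩ := mem_DB.1 hx
    exact mem_DB.2 ⟨b, hb, a, ha, by rw [← smul_neg, neg_sub]⟩

lemma plr_DB (K : Set (Fin n → ℝ)) : plr (DB K) = {y : Fin n → ℝ | (2 : ℝ)⁻¹ • y ∈ dpol K} := by
  ext y
  constructor
  · intro hy a ha b hb
    have h := hy _ (mem_DB.2 ⟨a, ha, b, hb, rfl⟩)
    rw [dotProduct] at h
    convert h using 1
    apply Finset.sum_congr rfl
    intro i _
    simp
    ring
  · intro hy x hx
    obtain ⟨a, ha, b, hb, rfl⟩ := mem_DB.1 hx
    have h := hy a ha b hb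
    rw [dotProduct]
    convert h using 1
    apply Finset.sum_congr rfl
    intro i _
    simp
    ring

lemma lint_even_le {K : Set (Fin n → ℝ)} (hK : IsCompact K) (hc : Convex ℝ K)
    (hi : (interior K).Nonempty) :
    ∫⁻ y : Fin n → ℝ, ENNReal.ofReal (Real.exp (-((hh K y + hh K (-y)) / 2))) ≤
      ENNReal.ofReal (n.factorial * 2 ^ n) * volume (dpol K) := by
  have hD := sBody_DB hK hc hi
  have h1 : ∀ y : Fin n → ℝ, Real.exp (-((hh K y + hh K (-y)) / 2)) ≤ pol (ind (DB K)) y := by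
    intro y
    have hne : Nonempty {x : Fin n → ℝ // 0 < ind (DB K) x} := by
      obtain ⟨z, hz⟩ := hi
      exact ⟨⟨_, ind_pos.2 (mem_DB.2 ⟨z, interior_subset hz, z, interior_subset hz, rfl⟩)⟩⟩
    apply le_ciInf
    rintro ⟨x, hx⟩
    have hx' := ind_pos.1 hx
    simp only
    rw [ind_of_mem hx', div_one]
    obtain ⟨a, ha, b, hb, rfl⟩ := mem_DB.1 hx'
    apply Real.exp_le_exp.2
    have e1 : ∑ i, a i * y i ≤ hh K y := le_csSup (bdd_hh hK y) ⟨a, ha, rfl⟩
    have e2 : ∑ i, b i * (-y) i ≤ hh K (-y) := le_csSup (bdd_hh hK (-y)) ⟨b, hb, rfl⟩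
    have e3 : ((1 / 2 : ℝ) • (a - b)) ⬝ᵥ y = (∑ i, a i * y i + ∑ i, b i * (-y) i) / 2 := by
      rw [dotProduct, ← Finset.sum_add_distrib, Finset.sum_div]
      apply Finset.sum_congr rfl
      intro i _
      simp
      ring
    rw [e3]
    linarith
  calc ∫⁻ y : Fin n → ℝ, ENNReal.ofReal (Real.exp (-((hh K y + hh K (-y)) / 2)))
      ≤ ∫⁻ y, ENNReal.ofReal (pol (ind (DB K)) y) :=
        lintegral_mono fun y => ENNReal.ofReal_le_ofReal (h1 y)
    _ = ENNReal.ofReal (∫ y, pol (ind (DB K)) y) :=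
        (ofReal_integral_eq_lintegral_ofReal (pol_integrable (ind_elc hD))
          (Filter.Eventually.of_forall fun u => pol_nonneg u)).symm
    _ ≤ ENNReal.ofReal (n.factorial * 2 ^ n) * volume (dpol K) := by
        rw [integral_pol_ind hD, plr_DB, vol_pre _ (by norm_num),
          ENNReal.ofReal_mul (by positivity), ENNReal.ofReal_mul (by positivity), mul_assoc]
        gcongr
        rw [ENNReal.toReal_mul, ENNReal.toReal_ofReal (by positivity),
          ENNReal.ofReal_mul (by positivity)]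
        gcongr
        exact ENNReal.ofReal_toReal_le

/-- the inequality `|K| |(K - K)°| ≥ (n + 1) / n!` -/
theorem makai {K : Set (Fin n → ℝ)} (hn : 1 ≤ n) (hK : IsCompact K) (hc : Convex ℝ K)
    (hi : (interior K).Nonempty) :
    ENNReal.ofReal ((n + 1) / n.factorial) ≤ volume K * volume (dpol K) := by
  have hV : volume K ≠ 0 := (Measure.measure_pos_of_nonempty_interior volume hi).ne'
  have hVt : volume K ≠ ∞ := hK.measure_lt_top.ne
  have hB := sBody_LB hK hc hi
  set I : ℝ≥0∞ := ∫⁻ y : Fin n → ℝ, ENNReal.ofReal (Real.exp (-((hh K y + hh K (-y)) / 2))) with hI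
  have h1 := functional_mahler (ind_elc hB)
  rw [integral_ind hB, vol_LB hK] at h1
  have h2 := lint_pol_le' hK hc hi
  have h2' := lint_even_le hK hc hi
  have h3 := vol_LL hn hK hc hV
  set l : ℝ := (volume (LL K)).toReal with hl
  have hl0 : 0 ≤ l := ENNReal.toReal_nonneg
  set v : ℝ := (volume K).toReal with hv
  have hv0 : 0 < v := ENNReal.toReal_pos hV hVt
  have hVv : volume K = ENNReal.ofReal v := (ENNReal.ofReal_toReal hVt).symm
  set P : ℝ := ∫ u, pol (ind (LB K)) u with hP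
  have h4 : ENNReal.ofReal ((n + 1) * 4 ^ (n + 1)) ≤
      ENNReal.ofReal (2 ^ (n + 1) * v) * (2 * (ENNReal.ofReal (n.factorial * 2 ^ n) *
        volume (dpol K))) := by
    calc ENNReal.ofReal ((n + 1) * 4 ^ (n + 1)) ≤ ENNReal.ofReal ((2 ^ (n + 1) * v) * P) := by
          apply ENNReal.ofReal_le_ofReal
          have hP0 : 0 ≤ P := integral_nonneg fun u => pol_nonneg u
          calc ((n : ℝ) + 1) * 4 ^ (n + 1) ≤ (n + 1) * (l * P) := by
                gcongr
            _ = (l * (n + 1)) * P := by ring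
            _ ≤ (2 ^ (n + 1) * v) * P := by gcongr
      _ = ENNReal.ofReal (2 ^ (n + 1) * v) * ENNReal.ofReal P :=
          ENNReal.ofReal_mul (by positivity)
      _ ≤ _ := by
          gcongr
          exact h2.trans (by gcongr)
  have h5 : ENNReal.ofReal (2 ^ (n + 1) * v) * (2 * (ENNReal.ofReal (n.factorial * 2 ^ n) *
        volume (dpol K))) =
      ENNReal.ofReal (4 ^ (n + 1) * n.factorial) * (volume K * volume (dpol K)) := by
    rw [hVv, show (2 : ℝ≥0∞) = ENNReal.ofReal 2 by norm_num, ← mul_assoc, ← mul_assoc, ← mul_assoc,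
      ← ENNReal.ofReal_mul (by positivity), ← ENNReal.ofReal_mul (by positivity),
      ← ENNReal.ofReal_mul (by positivity)]
    congr 2
    rw [show (4 : ℝ) = 2 * 2 by norm_num, mul_pow, pow_succ]
    ring
  have h6 : ENNReal.ofReal ((n + 1) * 4 ^ (n + 1)) =
      ENNReal.ofReal (4 ^ (n + 1) * n.factorial) * ENNReal.ofReal ((n + 1) / n.factorial) := by
    rw [← ENNReal.ofReal_mul (by positivity)]
    congr 1
    field_simp
  rw [h5, h6] at h4
  have hpos : 0 < (4 : ℝ) ^ (n + 1) * n.factorial := by positivity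
  exact (ENNReal.mul_le_mul_iff_right (ENNReal.ofReal_pos.2 hpos).ne' ENNReal.ofReal_ne_top).1 h4

end H44.MH
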