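import Mathlib

/-!
# A Rogers–Shephard inequality for `conv ({1} × K ∪ {-1} × (-K))`
-/

set_option autoImplicit false

open MeasureTheory Set
open scoped ENNReal Pointwise

namespace H44.MH

variable {n : ℕ}

/-- the body `conv ({1} × K ∪ {-1} × (-K))` in `ℝ × ℝⁿ` -/
def LL (K : Set (Fin n → ℝ)) : Set (ℝ × (Fin n → ℝ)) :=
  {w | |w.1| ≤ 1 ∧ ∃ a ∈ K, ∃ b ∈ K, w.2 = ((1 + w.1) / 2) • a - ((1 - w.1) / 2) • b}

/-- the set under the section function -/
def EE (K : Set (Fin n → ℝ)) : Set ((ℝ × (Fin n → ℝ)) × (Fin n → ℝ)) :=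
  {q | q.1.1 ∈ Ioo (-1 : ℝ) 1 ∧ ((1 + q.1.1) / 2)⁻¹ • q.2 ∈ K ∧
    ((1 - q.1.1) / 2)⁻¹ • (q.2 - q.1.2) ∈ K}

/-- the section function -/
noncomputable def FF (K : Set (Fin n → ℝ)) (w : ℝ × (Fin n → ℝ)) : ℝ≥0∞ :=
  volume {z | (w, z) ∈ EE K}

lemma isCompact_LL {K : Set (Fin n → ℝ)} (hK : IsCompact K) : IsCompact (LL K) := by
  have h : LL K = (fun q : ℝ × (Fin n → ℝ) × (Fin n → ℝ) =>
      ((q.1, ((1 + q.1) / 2) • q.2.1 - ((1 - q.1) / 2) • q.2.2) : ℝ × (Fin n → ℝ))) ''
        (Icc (-1 : ℝ) 1 ×ˢ (K ×ˢ K)) := by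
    ext w
    constructor
    · rintro ⟨h1, a, ha, b, hb, h2⟩
      exact ⟨(w.1, a, b), ⟨abs_le.1 h1, ha, hb⟩, Prod.ext rfl h2.symm⟩
    · rintro ⟨q, ⟨h1, h2, h3⟩, rfl⟩
      exact ⟨abs_le.2 h1, q.2.1, h2, q.2.2, h3, rfl⟩
  rw [h]
  apply (isCompact_Icc.prod (hK.prod hK)).image
  fun_prop

lemma measurableSet_LL {K : Set (Fin n → ℝ)} (hK : IsCompact K) : MeasurableSet (LL K) :=
  (isCompact_LL hK).isClosed.measurableSet

lemma measurableSet_EE {K : Set (Fin n → ℝ)} (hK : IsCompact K) : MeasurableSet (EE K) := by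
  have hm := hK.isClosed.measurableSet
  apply MeasurableSet.inter
  · exact measurableSet_Ioo.preimage (by fun_prop : Measurable
      fun q : (ℝ × (Fin n → ℝ)) × (Fin n → ℝ) => q.1.1)
  apply MeasurableSet.inter
  · apply hm.preimage (f := fun q : (ℝ × (Fin n → ℝ)) × (Fin n → ℝ) =>
      ((1 + q.1.1) / 2)⁻¹ • q.2)
    fun_prop
  · apply hm.preimage (f := fun q : (ℝ × (Fin n → ℝ)) × (Fin n → ℝ) =>
      ((1 - q.1.1) / 2)⁻¹ • (q.2 - q.1.2))
    fun_prop

lemma vol_pre (K : Set (Fin n → ℝ)) {c : ℝ} (hc : 0 < c) :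
    volume {z : Fin n → ℝ | c⁻¹ • z ∈ K} = ENNReal.ofReal (c ^ n) * volume K := by
  have h := Measure.addHaar_preimage_smul (volume : Measure (Fin n → ℝ))
    (inv_ne_zero hc.ne') K
  rw [Module.finrank_fin_fun, inv_pow, inv_inv, abs_of_pos (pow_pos hc n)] at h
  exact h

/-- lower bound of the section function -/
lemma FF_ge {K : Set (Fin n → ℝ)} (hc : Convex ℝ K) {w : ℝ × (Fin n → ℝ)} {l : ℝ}
    (hl : l ∈ Ioo (0 : ℝ) 1) (hw : l⁻¹ • w ∈ LL K) :
    ENNReal.ofReal (((1 - l) / 2) ^ n) * volume K ≤ FF K w := by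
  obtain ⟨h1, a, ha, b, hb, h2⟩ := hw
  obtain ⟨hl0, hl1⟩ := hl
  set r0 : ℝ := (l⁻¹ • w).1 with hr0
  have hwr : w.1 = l * r0 := by
    rw [hr0, Prod.smul_fst, smul_eq_mul]; field_simp
  have hw2 : w.2 = (l * ((1 + r0) / 2)) • a - (l * ((1 - r0) / 2)) • b := by
    have h3 : w.2 = l • (l⁻¹ • w).2 := by
      rw [Prod.smul_snd, smul_smul, mul_inv_cancel₀ hl0.ne', one_smul]
    rw [h3, h2, smul_sub, smul_smul, smul_smul]
  obtain ⟨h1a, h1b⟩ := abs_le.1 h1
  have hc0 : 0 < (1 - l) / 2 := by linarith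
  have hα : 0 < (1 + w.1) / 2 := by rw [hwr]; nlinarith
  have hβ : 0 < (1 - w.1) / 2 := by rw [hwr]; nlinarith
  rw [← vol_pre K hc0]
  have h4 : volume {z : Fin n → ℝ | ((1 - l) / 2)⁻¹ • z ∈ K} =
      volume ((fun z => z + (-(((l * ((1 + r0) / 2)) • a)))) ⁻¹'
        {z : Fin n → ℝ | ((1 - l) / 2)⁻¹ • z ∈ K}) := by
    rw [measure_preimage_add_right]
  rw [h4]
  apply measure_mono
  intro z hz
  have hz1 : ((1 - l) / 2)⁻¹ • (z + (-(((l * ((1 + r0) / 2)) • a)))) ∈ K := hz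
  set k : Fin n → ℝ := ((1 - l) / 2)⁻¹ • (z + (-(((l * ((1 + r0) / 2)) • a)))) with hk
  have hzk : z = (l * ((1 + r0) / 2)) • a + ((1 - l) / 2) • k := by
    rw [hk, smul_smul, mul_inv_cancel₀ hc0.ne', one_smul]; abel
  have hl' : 0 ≤ l * ((1 + r0) / 2) := mul_nonneg hl0.le (by linarith)
  have hl'' : 0 ≤ l * ((1 - r0) / 2) := mul_nonneg hl0.le (by linarith)
  refine ⟨⟨?_, ?_⟩, ?_, ?_⟩
  · show -1 < w.1
    linarith
  · show w.1 < 1
    linarith
  · show ((1 + w.1) / 2)⁻¹ • z ∈ K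
    rw [hzk, smul_add, smul_smul, smul_smul]
    apply hc ha hz1 (by positivity) (by positivity)
    rw [← mul_add]
    have : l * ((1 + r0) / 2) + (1 - l) / 2 = (1 + w.1) / 2 := by rw [hwr]; ring
    rw [this, inv_mul_cancel₀ hα.ne']
  · show ((1 - w.1) / 2)⁻¹ • (z - w.2) ∈ K
    have h5 : z - w.2 = (l * ((1 - r0) / 2)) • b + ((1 - l) / 2) • k := by
      rw [hzk, hw2]; abel
    rw [h5, smul_add, smul_smul, smul_smul]
    apply hc hb hz1 (by positivity) (by positivity)
    rw [← mul_add]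
    have : l * ((1 - r0) / 2) + (1 - l) / 2 = (1 - w.1) / 2 := by rw [hwr]; ring
    rw [this, inv_mul_cancel₀ hβ.ne']

lemma FF_lt_top {K : Set (Fin n → ℝ)} (hK : IsCompact K) (w : ℝ × (Fin n → ℝ)) :
    FF K w < ∞ := by
  by_cases hw : w.1 ∈ Ioo (-1 : ℝ) 1
  · have h1 : FF K w ≤ volume {z : Fin n → ℝ | ((1 + w.1) / 2)⁻¹ • z ∈ K} :=
      measure_mono fun z hz => hz.2.1
    rw [vol_pre K (by linarith [hw.1] : (0 : ℝ) < (1 + w.1) / 2)] at h1
    exact h1.trans_lt (ENNReal.mul_lt_top ENNReal.ofReal_lt_top hK.measure_lt_top)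
  · have h1 : {z | (w, z) ∈ EE K} = ∅ := by
      ext z
      simp only [mem_ofPred_eq, mem_empty_iff_false, iff_false]
      exact fun h => hw h.1
    rw [FF, h1]; simp

lemma integral_FF {K : Set (Fin n → ℝ)} (hK : IsCompact K) :
    ∫⁻ w, FF K w = ENNReal.ofReal (∫ r in (-1 : ℝ)..1, ((1 + r) / 2) ^ n * ((1 - r) / 2) ^ n) *
      (volume K * volume K) := by
  have hE := measurableSet_EE hK
  have hm := hK.isClosed.measurableSet
  have hFm : Measurable (FF K) := measurable_measure_prodMk_left hE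
  have h0 : ∫⁻ w, FF K w = ∫⁻ r : ℝ, ∫⁻ x : Fin n → ℝ, FF K (r, x) := by
    rw [show (volume : Measure (ℝ × (Fin n → ℝ))) = (volume : Measure ℝ).prod volume from rfl]
    exact lintegral_prod _ hFm.aemeasurable
  have h1 : ∀ r : ℝ, ∫⁻ x : Fin n → ℝ, FF K (r, x) = (Ioo (-1 : ℝ) 1).indicator
      (fun r => ENNReal.ofReal (((1 + r) / 2) ^ n * ((1 - r) / 2) ^ n) *
        (volume K * volume K)) r := by
    intro r
    by_cases hr : r ∈ Ioo (-1 : ℝ) 1
    · rw [indicator_of_mem hr]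
      have hα : 0 < (1 + r) / 2 := by linarith [hr.1]
      have hβ : 0 < (1 - r) / 2 := by linarith [hr.2]
      set A : Set (Fin n → ℝ) := {z | ((1 + r) / 2)⁻¹ • z ∈ K} with hA
      set B : Set (Fin n → ℝ) := {z | ((1 - r) / 2)⁻¹ • z ∈ K} with hB
      have hAm : MeasurableSet A := hm.preimage (by fun_prop)
      have hBm : MeasurableSet B := hm.preimage (by fun_prop)
      have h2 : ∀ x : Fin n → ℝ, FF K (r, x) =
          ∫⁻ z, A.indicator 1 z * B.indicator 1 (z - x) := by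
        intro x
        have h3 : {z | ((r, x), z) ∈ EE K} = A ∩ ((fun z => z - x) ⁻¹' B) := by
          ext z
          exact ⟨fun h => ⟨h.2.1, h.2.2⟩, fun h => ⟨hr, h.1, h.2⟩⟩
        have h4 : MeasurableSet (A ∩ ((fun z => z - x) ⁻¹' B)) :=
          hAm.inter (hBm.preimage (by fun_prop))
        rw [FF, h3, ← lintegral_indicator_one h4]
        apply lintegral_congr
        intro z
        rw [inter_indicator_one, Pi.mul_apply]
        congr 1
      simp_rw [h2]
      rw [lintegral_lintegral_swap]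
      · have h5 : ∀ z : Fin n → ℝ, ∫⁻ x, A.indicator 1 z * B.indicator 1 (z - x) =
            A.indicator 1 z * volume B := by
          intro z
          rw [lintegral_const_mul']
          · congr 1
            rw [lintegral_sub_left_eq_self (fun x => B.indicator (1 : (Fin n → ℝ) → ℝ≥0∞) x) z,
              lintegral_indicator_one hBm]
          · by_cases hz : z ∈ A
            · simp [indicator_of_mem hz]
            · simp [indicator_of_notMem hz]
        simp_rw [h5]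
        rw [lintegral_mul_const _ (measurable_one.indicator hAm), lintegral_indicator_one hAm,
          hA, hB, vol_pre K hα, vol_pre K hβ, ENNReal.ofReal_mul (by positivity)]
        ring
      · apply Measurable.aemeasurable
        apply Measurable.mul
        · exact (measurable_one.indicator hAm).comp measurable_snd
        · exact (measurable_one.indicator hBm).comp (measurable_snd.sub measurable_fst)
    · rw [indicator_of_notMem hr]
      have h2 : ∀ x : Fin n → ℝ, FF K (r, x) = 0 := by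
        intro x
        have h3 : {z | ((r, x), z) ∈ EE K} = ∅ := by
          ext z
          simp only [mem_ofPred_eq, mem_empty_iff_false, iff_false]
          exact fun h => hr h.1
        rw [FF, h3]; simp
      simp [h2]
  rw [h0]
  simp_rw [h1]
  rw [lintegral_indicator measurableSet_Ioo, lintegral_mul_const', ← ofReal_integral_eq_lintegral_ofReal]
  · congr 2
    rw [intervalIntegral.integral_of_le (by norm_num), integral_Ioc_eq_integral_Ioo]
  · apply Continuous.integrableOn_Ioc (by fun_prop) |>.mono_set Ioo_subset_Ioc_self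
  · rw [Filter.EventuallyLE, ae_restrict_iff' measurableSet_Ioo]
    refine Filter.Eventually.of_forall fun r hr => ?_
    have hα : 0 < (1 + r) / 2 := by linarith [hr.1]
    have hβ : 0 < (1 - r) / 2 := by linarith [hr.2]
    show (0 : ℝ) ≤ _
    positivity
  · exact ENNReal.mul_ne_top hK.measure_lt_top.ne hK.measure_lt_top.ne

end H44.MH
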