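import Pool.Agent.H44.MH.RS

set_option autoImplicit false

open MeasureTheory Set
open scoped ENNReal Pointwise

namespace H44.MH

variable {n : ℕ}

/-- the layer function -/
noncomputable def GG (K : Set (Fin n → ℝ)) (w : ℝ × (Fin n → ℝ)) : ℝ≥0∞ :=
  ∫⁻ l in Ioo (0 : ℝ) 1, ENNReal.ofReal (n * (1 - l) ^ (n - 1)) *
    (LL K).indicator 1 (l⁻¹ • w)

lemma int_pow (hn : 1 ≤ n) (c : ℝ) :
    ∫ l in (1 - c)..1, (n : ℝ) * (1 - l) ^ (n - 1) = c ^ n := by
  have h : ∀ x ∈ uIcc (1 - c) 1, HasDerivAt (fun l : ℝ => -(1 - l) ^ n)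
      ((n : ℝ) * (1 - x) ^ (n - 1)) x := by
    intro x _
    have h1 : HasDerivAt (fun l : ℝ => 1 - l) (-1) x := by
      simpa using (hasDerivAt_id x).const_sub 1
    have h2 := (h1.fun_pow n).fun_neg
    exact h2.congr_deriv (by ring)
  rw [intervalIntegral.integral_eq_sub_of_hasDerivAt h
    (by apply Continuous.intervalIntegrable; fun_prop)]
  simp [show n ≠ 0 by omega]

/-- pointwise comparison -/
lemma GG_le {K : Set (Fin n → ℝ)} (hn : 1 ≤ n) (hK : IsCompact K) (hc : Convex ℝ K)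
    (hV : volume K ≠ 0) (w : ℝ × (Fin n → ℝ)) :
    volume K * GG K w ≤ 2 ^ n * FF K w := by
  have hVt : volume K ≠ ∞ := hK.measure_lt_top.ne
  have hFt : FF K w ≠ ∞ := (FF_lt_top hK w).ne
  set v : ℝ := (volume K).toReal with hv
  set f : ℝ := (FF K w).toReal with hf
  have hv0 : 0 < v := ENNReal.toReal_pos hV hVt
  have hf0 : 0 ≤ f := ENNReal.toReal_nonneg
  have hVv : volume K = ENNReal.ofReal v := (ENNReal.ofReal_toReal hVt).symm
  have hFf : FF K w = ENNReal.ofReal f := (ENNReal.ofReal_toReal hFt).symm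
  have hn0 : n ≠ 0 := by omega
  set c : ℝ := 2 * (f / v) ^ ((n : ℝ)⁻¹) with hcdef
  have hq : 0 ≤ f / v := div_nonneg hf0 hv0.le
  have hc0 : 0 ≤ c := by positivity
  have hcn : c ^ n = 2 ^ n * (f / v) := by
    rw [hcdef, mul_pow, Real.rpow_inv_natCast_pow hq hn0]
  have h1 : ∀ l ∈ Ioo (0 : ℝ) 1, l⁻¹ • w ∈ LL K → l ∈ Ioc (1 - c) 1 ∨ l = 1 - c := by
    intro l hl hw
    have h2 := FF_ge hc hl hw
    rw [hVv, hFf, ← ENNReal.ofReal_mul (by have := hl.2; exact pow_nonneg (by linarith) n),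
      ENNReal.ofReal_le_ofReal_iff hf0] at h2
    have h3 : ((1 - l) / 2) ^ n ≤ f / v := by rwa [le_div_iff₀ hv0]
    have h4 : (1 - l) ^ n ≤ c ^ n := by
      rw [hcn]
      rw [div_pow, div_le_iff₀ (by positivity)] at h3
      linarith
    have h5 : 1 - l ≤ c := by
      by_contra hlt
      push Not at hlt
      exact absurd (pow_lt_pow_left₀ hlt hc0 hn0) (not_lt.2 h4)
    rcases eq_or_lt_of_le (show 1 - c ≤ l by linarith) with h6 | h6
    · exact Or.inr h6.symm
    · exact Or.inl ⟨h6, hl.2.le⟩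
  have h2 : GG K w ≤ ENNReal.ofReal (c ^ n) := by
    have h3 : GG K w ≤ ∫⁻ l in Icc (1 - c) 1, ENNReal.ofReal (n * (1 - l) ^ (n - 1)) := by
      rw [GG, ← lintegral_indicator measurableSet_Ioo, ← lintegral_indicator measurableSet_Icc]
      apply lintegral_mono
      intro l
      by_cases hl : l ∈ Ioo (0 : ℝ) 1
      · rw [indicator_of_mem hl]
        by_cases hw : l⁻¹ • w ∈ LL K
        · have hl2 : l ∈ Icc (1 - c) 1 := by
            rcases h1 l hl hw with h | h
            · exact ⟨h.1.le, h.2⟩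
            · exact ⟨h.ge, hl.2.le⟩
          rw [indicator_of_mem hw, indicator_of_mem hl2, Pi.one_apply, mul_one]
        · rw [indicator_of_notMem hw, mul_zero]
          exact zero_le
      · rw [indicator_of_notMem hl]
        exact zero_le
    refine h3.trans (le_of_eq ?_)
    rw [← ofReal_integral_eq_lintegral_ofReal, integral_Icc_eq_integral_Ioc,
      ← intervalIntegral.integral_of_le (by linarith), int_pow hn]
    · apply Continuous.integrableOn_Icc (by fun_prop)
    · rw [Filter.EventuallyLE, ae_restrict_iff' measurableSet_Icc]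
      refine Filter.Eventually.of_forall fun l hl => ?_
      show (0 : ℝ) ≤ _
      exact mul_nonneg (Nat.cast_nonneg _) (pow_nonneg (by linarith [hl.2]) _)
  calc volume K * GG K w ≤ ENNReal.ofReal v * ENNReal.ofReal (c ^ n) := by
        rw [hVv]; gcongr
    _ = ENNReal.ofReal (2 ^ n * f) := by
        rw [← ENNReal.ofReal_mul hv0.le, hcn]
        congr 1
        field_simp
    _ = 2 ^ n * FF K w := by
        rw [ENNReal.ofReal_mul (by positivity), hFf, ENNReal.ofReal_pow (by norm_num)]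
        norm_num

lemma vol_pre' (L : Set (ℝ × (Fin n → ℝ))) {c : ℝ} (hc : 0 < c) :
    volume {z : ℝ × (Fin n → ℝ) | c⁻¹ • z ∈ L} = ENNReal.ofReal (c ^ (n + 1)) * volume L := by
  have : (volume : Measure (ℝ × (Fin n → ℝ))).IsAddHaarMeasure := by
    rw [show (volume : Measure (ℝ × (Fin n → ℝ))) = (volume : Measure ℝ).prod volume from rfl]
    infer_instance
  have h := Measure.addHaar_preimage_smul (volume : Measure (ℝ × (Fin n → ℝ)))
    (inv_ne_zero hc.ne') L
  have hd : Module.finrank ℝ (ℝ × (Fin n → ℝ)) = n + 1 := by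
    rw [Module.finrank_prod, Module.finrank_fin_fun, Module.finrank_self]; ring
  rw [hd, inv_pow, inv_inv, abs_of_pos (pow_pos hc (n + 1))] at h
  exact h

lemma integral_GG {K : Set (Fin n → ℝ)} (hK : IsCompact K) :
    ∫⁻ w, GG K w = ENNReal.ofReal (∫ l in (0 : ℝ)..1, (n * (1 - l) ^ (n - 1)) * l ^ (n + 1)) *
      volume (LL K) := by
  have hL := measurableSet_LL hK
  have hLt : volume (LL K) ≠ ∞ := (isCompact_LL hK).measure_lt_top.ne
  unfold GG
  rw [lintegral_lintegral_swap]
  · have h1 : ∀ l ∈ Ioo (0 : ℝ) 1, ∫⁻ w : ℝ × (Fin n → ℝ),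
        ENNReal.ofReal (n * (1 - l) ^ (n - 1)) * (LL K).indicator 1 (l⁻¹ • w) =
        ENNReal.ofReal ((n * (1 - l) ^ (n - 1)) * l ^ (n + 1)) * volume (LL K) := by
      intro l hl
      have h2 : MeasurableSet {w : ℝ × (Fin n → ℝ) | l⁻¹ • w ∈ LL K} :=
        hL.preimage (by fun_prop)
      rw [lintegral_const_mul']
      · have h3 : ∫⁻ w : ℝ × (Fin n → ℝ), (LL K).indicator (1 : ℝ × (Fin n → ℝ) → ℝ≥0∞) (l⁻¹ • w) =
            volume {w : ℝ × (Fin n → ℝ) | l⁻¹ • w ∈ LL K} := by
          rw [← lintegral_indicator_one h2]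
          apply lintegral_congr
          intro w
          by_cases hw : l⁻¹ • w ∈ LL K
          · rw [indicator_of_mem hw, indicator_of_mem (show w ∈ {w | l⁻¹ • w ∈ LL K} from hw)]
            rfl
          · rw [indicator_of_notMem hw, indicator_of_notMem (show w ∉ {w | l⁻¹ • w ∈ LL K} from hw)]
        rw [h3, vol_pre' _ hl.1, ENNReal.ofReal_mul (show (0 : ℝ) ≤ n * (1 - l) ^ (n - 1) from
          mul_nonneg (Nat.cast_nonneg _) (pow_nonneg (by linarith [hl.2]) _)), mul_assoc]
      · exact ENNReal.ofReal_ne_top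
    rw [setLIntegral_congr_fun measurableSet_Ioo h1, lintegral_mul_const' _ _ hLt,
      ← ofReal_integral_eq_lintegral_ofReal]
    · congr 2
      rw [intervalIntegral.integral_of_le (by norm_num), integral_Ioc_eq_integral_Ioo]
    · apply Continuous.integrableOn_Ioc (by fun_prop) |>.mono_set Ioo_subset_Ioc_self
    · rw [Filter.EventuallyLE, ae_restrict_iff' measurableSet_Ioo]
      refine Filter.Eventually.of_forall fun l hl => ?_
      show (0 : ℝ) ≤ _
      exact mul_nonneg (mul_nonneg (Nat.cast_nonneg _) (pow_nonneg (by linarith [hl.2]) _))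
        (pow_nonneg hl.1.le _)
  · apply Measurable.aemeasurable
    apply Measurable.mul
    · fun_prop
    · apply (measurable_one.indicator hL).comp
      fun_prop

lemma int_beta (hn : 1 ≤ n) :
    ∫ l in (0 : ℝ)..1, (n * (1 - l) ^ (n - 1)) * l ^ (n + 1) =
      (n + 1) * ∫ l in (0 : ℝ)..1, l ^ n * (1 - l) ^ n := by
  have h : ∀ x ∈ uIcc (0 : ℝ) 1, HasDerivAt (fun l : ℝ => l ^ (n + 1) * (1 - l) ^ n)
      ((n + 1) * (x ^ n * (1 - x) ^ n) - (n * (1 - x) ^ (n - 1)) * x ^ (n + 1)) x := by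
    intro x _
    have h1 : HasDerivAt (fun l : ℝ => 1 - l) (-1) x := by
      simpa using (hasDerivAt_id x).const_sub 1
    have h2 := (hasDerivAt_pow (n + 1) x).fun_mul (h1.fun_pow n)
    refine h2.congr_deriv ?_
    push_cast
    ring
  have h1 := intervalIntegral.integral_eq_sub_of_hasDerivAt h
    (by apply Continuous.intervalIntegrable; fun_prop)
  rw [intervalIntegral.integral_sub (by apply Continuous.intervalIntegrable; fun_prop)
    (by apply Continuous.intervalIntegrable; fun_prop), intervalIntegral.integral_const_mul] at h1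
  simp [show n ≠ 0 by omega] at h1
  linarith

lemma int_half (n : ℕ) :
    ∫ r in (-1 : ℝ)..1, ((1 + r) / 2) ^ n * ((1 - r) / 2) ^ n =
      2 * ∫ l in (0 : ℝ)..1, l ^ n * (1 - l) ^ n := by
  have h := intervalIntegral.integral_comp_mul_sub (a := 0) (b := 1)
    (fun r : ℝ => ((1 + r) / 2) ^ n * ((1 - r) / 2) ^ n) (c := 2) (by norm_num) 1
  have h2 : (fun x : ℝ => ((1 + (2 * x - 1)) / 2) ^ n * ((1 - (2 * x - 1)) / 2) ^ n) =
      fun x => x ^ n * (1 - x) ^ n := by
    funext x
    congr 2 <;> ring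
  simp only [mul_zero, zero_sub, mul_one] at h
  rw [h2] at h
  rw [h, smul_eq_mul]
  norm_num
  ring

lemma int_pos (n : ℕ) : 0 < ∫ l in (0 : ℝ)..1, l ^ n * (1 - l) ^ n := by
  apply intervalIntegral.intervalIntegral_pos_of_pos_on
  · apply Continuous.intervalIntegrable; fun_prop
  · intro x hx
    have h1 : 0 < x := hx.1
    have h2 : 0 < 1 - x := by linarith [hx.2]
    positivity
  · norm_num

/-- **the Rogers–Shephard inequality for `conv ({1} × K ∪ {-1} × (-K))`** -/
theorem vol_LL {K : Set (Fin n → ℝ)} (hn : 1 ≤ n) (hK : IsCompact K) (hc : Convex ℝ K)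
    (hV : volume K ≠ 0) :
    (volume (LL K)).toReal * (n + 1) ≤ 2 ^ (n + 1) * (volume K).toReal := by
  have hVt : volume K ≠ ∞ := hK.measure_lt_top.ne
  have hLt : volume (LL K) ≠ ∞ := (isCompact_LL hK).measure_lt_top.ne
  have h1 : volume K * ∫⁻ w, GG K w ≤ 2 ^ n * ∫⁻ w, FF K w := by
    rw [← lintegral_const_mul' _ _ hVt, ← lintegral_const_mul' _ _ (by finiteness)]
    exact lintegral_mono fun w => GG_le hn hK hc hV w
  rw [integral_GG hK, integral_FF hK, int_beta hn, int_half] at h1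
  set J : ℝ := ∫ l in (0 : ℝ)..1, l ^ n * (1 - l) ^ n with hJ
  have hJ0 : 0 < J := int_pos n
  set v : ℝ := (volume K).toReal with hv
  set f : ℝ := (volume (LL K)).toReal with hf
  have hv0 : 0 < v := ENNReal.toReal_pos hV hVt
  have hf0 : 0 ≤ f := ENNReal.toReal_nonneg
  have hVv : volume K = ENNReal.ofReal v := (ENNReal.ofReal_toReal hVt).symm
  have hFf : volume (LL K) = ENNReal.ofReal f := (ENNReal.ofReal_toReal hLt).symm
  have h2n : (2 : ℝ≥0∞) ^ n = ENNReal.ofReal (2 ^ n) := by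
    rw [ENNReal.ofReal_pow (by norm_num)]; norm_num
  rw [hVv, hFf, h2n, ← ENNReal.ofReal_mul (by positivity), ← ENNReal.ofReal_mul (by positivity),
    ← ENNReal.ofReal_mul (by positivity), ← ENNReal.ofReal_mul (by positivity),
    ← ENNReal.ofReal_mul (by positivity), ENNReal.ofReal_le_ofReal_iff (by positivity)] at h1
  have h2 : (v * J) * (f * (n + 1)) ≤ (v * J) * (2 ^ (n + 1) * v) := by
    rw [pow_succ]
    linarith
  exact le_of_mul_le_mul_left h2 (by positivity)

end H44.MH
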