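import Pool.Agent.H44.MH.Makai

set_option autoImplicit false

open MeasureTheory Set
open scoped ENNReal Pointwise Matrix

namespace H44.MH

/-- the standard simplex -/
def Sx (n : ℕ) : Set (Fin n → ℝ) := {z | (∀ i, 0 ≤ z i) ∧ ∑ i, z i ≤ 1}

lemma isClosed_Sx (n : ℕ) : IsClosed (Sx n) := by
  have h : Sx n = (⋂ i, {z : Fin n → ℝ | 0 ≤ z i}) ∩ {z : Fin n → ℝ | ∑ i, z i ≤ 1} := by
    ext z; simp [Sx]
  rw [h]
  apply IsClosed.inter
  · exact isClosed_iInter fun i => isClosed_le continuous_const (continuous_apply i)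
  · exact isClosed_le (by fun_prop) continuous_const

lemma le_one_Sx {n : ℕ} {z : Fin n → ℝ} (hz : z ∈ Sx n) (i : Fin n) : z i ≤ 1 :=
  (Finset.single_le_sum (fun j _ => hz.1 j) (Finset.mem_univ i)).trans hz.2

lemma isCompact_Sx (n : ℕ) : IsCompact (Sx n) := by
  apply (isCompact_Icc (a := (0 : Fin n → ℝ)) (b := 1)).of_isClosed_subset (isClosed_Sx n)
  intro z hz
  exact ⟨fun i => hz.1 i, fun i => le_one_Sx hz i⟩

lemma convex_Sx (n : ℕ) : Convex ℝ (Sx n) := by
  intro x hx y hy a b ha hb hab
  refine ⟨fun i => ?_, ?_⟩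
  · have h1 := hx.1 i
    have h2 := hy.1 i
    simp only [Pi.add_apply, Pi.smul_apply, smul_eq_mul]
    positivity
  · simp only [Pi.add_apply, Pi.smul_apply, smul_eq_mul]
    rw [Finset.sum_add_distrib, ← Finset.mul_sum, ← Finset.mul_sum]
    nlinarith [hx.2, hy.2]

lemma interior_Sx (n : ℕ) : (interior (Sx n)).Nonempty := by
  have ho : IsOpen {z : Fin n → ℝ | (∀ i, 0 < z i) ∧ ∑ i, z i < 1} := by
    have h : {z : Fin n → ℝ | (∀ i, 0 < z i) ∧ ∑ i, z i < 1} =
        (⋂ i, {z : Fin n → ℝ | 0 < z i}) ∩ {z : Fin n → ℝ | ∑ i, z i < 1} := by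
      ext z; simp
    rw [h]
    apply IsOpen.inter
    · exact isOpen_iInter_of_finite fun i => isOpen_lt continuous_const (continuous_apply i)
    · exact isOpen_lt (by fun_prop) continuous_const
  refine ⟨fun _ => 1 / ((n : ℝ) + 1), mem_interior.2 ⟨_, ?_, ho, ?_⟩⟩
  · exact fun z hz => ⟨fun i => (hz.1 i).le, hz.2.le⟩
  · refine ⟨fun i => by positivity, ?_⟩
    simp only [Finset.sum_const, Finset.card_univ, Fintype.card_fin, nsmul_eq_mul]
    rw [mul_one_div, div_lt_one (by positivity)]
    linarith

lemma vol_Sx_le : ∀ n : ℕ, volume (Sx n) ≤ ENNReal.ofReal (1 / n.factorial) := by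
  intro n
  induction n with
  | zero =>
    have h : volume (Sx 0) ≤ volume (univ : Set (Fin 0 → ℝ)) := measure_mono (subset_univ _)
    refine h.trans ?_
    rw [show (univ : Set (Fin 0 → ℝ)) = Set.pi univ (fun _ => univ) by simp, volume_pi,
      Measure.pi_pi]
    simp
  | succ n ih =>
    have hS : MeasurableSet (Sx (n + 1)) := (isClosed_Sx _).measurableSet
    have h1 : volume (Sx (n + 1)) = volume ((sp n).symm ⁻¹' Sx (n + 1)) :=
      ((volume_preserving_piFinSuccAbove (fun _ : Fin (n + 1) => ℝ) 0).symm.measure_preimage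
        hS.nullMeasurableSet).symm
    have hm : MeasurableSet ((sp n).symm ⁻¹' Sx (n + 1)) := hS.preimage (sp n).symm.measurable
    rw [h1, show (volume : Measure (ℝ × (Fin n → ℝ))) = (volume : Measure ℝ).prod volume from rfl,
      Measure.prod_apply hm]
    have h2 : ∀ r : ℝ, r ∈ Ioo (0 : ℝ) 1 → volume (Prod.mk r ⁻¹' ((sp n).symm ⁻¹' Sx (n + 1))) ≤
        ENNReal.ofReal ((1 - r) ^ n * (1 / n.factorial)) := by
      intro r hr
      have hr1 : 0 < 1 - r := by linarith [hr.2]
      calc volume (Prod.mk r ⁻¹' ((sp n).symm ⁻¹' Sx (n + 1)))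
          ≤ volume {z : Fin n → ℝ | (1 - r)⁻¹ • z ∈ Sx n} := by
            apply measure_mono
            intro z hz
            have hz1 : (Fin.cons r z : Fin (n + 1) → ℝ) ∈ Sx (n + 1) := by
              rw [← sp_symm]; exact hz
            refine ⟨fun i => ?_, ?_⟩
            · have := hz1.1 i.succ
              simp only [Fin.cons_succ] at this
              simp only [Pi.smul_apply, smul_eq_mul]
              positivity
            · have := hz1.2
              rw [Fin.sum_univ_succ] at this
              simp only [Fin.cons_zero, Fin.cons_succ] at this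
              simp only [Pi.smul_apply, smul_eq_mul]
              rw [← Finset.mul_sum, inv_mul_le_iff₀ hr1]
              linarith
        _ = ENNReal.ofReal ((1 - r) ^ n) * volume (Sx n) := vol_pre _ hr1
        _ ≤ _ := by
            rw [ENNReal.ofReal_mul (by positivity)]
            gcongr
    have h3 : ∀ᵐ r : ℝ, volume (Prod.mk r ⁻¹' ((sp n).symm ⁻¹' Sx (n + 1))) ≤
        (Ioo (0 : ℝ) 1).indicator
          (fun r => ENNReal.ofReal ((1 - r) ^ n * (1 / n.factorial))) r := by
      have h4 : ∀ᵐ r : ℝ, r ≠ 0 := by simp [ae_iff, measure_singleton]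
      have h5 : ∀ᵐ r : ℝ, r ≠ 1 := by simp [ae_iff, measure_singleton]
      filter_upwards [h4, h5] with r h4 h5
      by_cases hr : r ∈ Ioo (0 : ℝ) 1
      · rw [indicator_of_mem hr]; exact h2 r hr
      · rw [indicator_of_notMem hr]
        have : Prod.mk r ⁻¹' ((sp n).symm ⁻¹' Sx (n + 1)) = ∅ := by
          ext z
          simp only [mem_preimage, mem_empty_iff_false, iff_false]
          intro hz
          rw [sp_symm] at hz
          apply hr
          have h6 := hz.1 0
          have h7 := le_one_Sx hz 0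
          simp only [Fin.cons_zero] at h6 h7
          exact ⟨lt_of_le_of_ne h6 (Ne.symm h4), lt_of_le_of_ne h7 h5⟩
        rw [this]; simp
    refine (lintegral_mono_ae h3).trans (le_of_eq ?_)
    rw [lintegral_indicator measurableSet_Ioo, ← ofReal_integral_eq_lintegral_ofReal]
    · congr 1
      rw [← integral_Ioc_eq_integral_Ioo, ← intervalIntegral.integral_of_le (by norm_num),
        intervalIntegral.integral_mul_const]
      have h6 := int_pow (n := n + 1) (by omega) 1
      simp only [sub_self, Nat.add_sub_cancel, one_pow] at h6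
      rw [intervalIntegral.integral_const_mul] at h6
      push_cast at h6
      rw [Nat.factorial_succ]
      push_cast
      field_simp
      linarith
    · apply Continuous.integrableOn_Ioc (by fun_prop) |>.mono_set Ioo_subset_Ioc_self
    · rw [Filter.EventuallyLE, ae_restrict_iff' measurableSet_Ioo]
      refine Filter.Eventually.of_forall fun r hr => ?_
      have : 0 < 1 - r := by linarith [hr.2]
      show (0 : ℝ) ≤ _
      positivity

/-- a linear involution that moves the `j`-th vertex to the origin, on the dual side -/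
noncomputable def Tj {n : ℕ} (j : Fin n) : (Fin n → ℝ) →ₗ[ℝ] (Fin n → ℝ) where
  toFun t := fun i => t i - t j * (if i = j then 2 else 1)
  map_add' x y := by
    ext i
    simp only [Pi.add_apply]
    ring
  map_smul' c x := by
    ext i
    simp only [Pi.smul_apply, smul_eq_mul, RingHom.id_apply]
    ring

lemma Tj_apply {n : ℕ} (j : Fin n) (t : Fin n → ℝ) (i : Fin n) :
    Tj j t i = t i - t j * (if i = j then 2 else 1) := rfl

lemma Tj_Tj {n : ℕ} (j : Fin n) (t : Fin n → ℝ) : Tj j (Tj j t) = t := by
  ext i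
  rw [Tj_apply, Tj_apply, Tj_apply]
  by_cases h : i = j
  · subst h; simp; ring
  · simp [h]; ring

lemma det_Tj {n : ℕ} (j : Fin n) : |LinearMap.det (Tj j)| = 1 := by
  have h : Tj j ∘ₗ Tj j = LinearMap.id := by
    apply LinearMap.ext
    intro t
    exact Tj_Tj j t
  have h2 := congrArg LinearMap.det h
  rw [LinearMap.det_comp, LinearMap.det_id] at h2
  have h3 : |LinearMap.det (Tj j)| * |LinearMap.det (Tj j)| = 1 := by
    rw [← abs_mul, h2, abs_one]
  nlinarith [abs_nonneg (LinearMap.det (Tj j))]

lemma vol_dpol_Sx_le (n : ℕ) : volume (dpol (Sx n)) ≤ (n : ℝ≥0∞) + 1 := by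
  have h1 : dpol (Sx n) ⊆ Icc (0 : Fin n → ℝ) 1 ∪ ⋃ j : Fin n, Tj j '' Icc (0 : Fin n → ℝ) 1 := by
    intro y hy
    have hz : (0 : Fin n → ℝ) ∈ Sx n := ⟨fun i => le_rfl, by simp⟩
    have he : ∀ i : Fin n, (Pi.single i 1 : Fin n → ℝ) ∈ Sx n := by
      intro i
      refine ⟨fun k => ?_, ?_⟩
      · by_cases h : k = i
        · subst h; simp
        · simp [h]
      · simp
    have a1 : ∀ i, y i ≤ 1 := by
      intro i
      have := hy _ (he i) 0 hz
      simpa [Pi.single_apply] using this
    have a2 : ∀ i, -y i ≤ 1 := by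
      intro i
      have := hy 0 hz _ (he i)
      simpa [Pi.single_apply] using this
    have a3 : ∀ i j, y i - y j ≤ 1 := by
      intro i j
      have := hy _ (he i) _ (he j)
      simpa [Pi.single_apply, sub_mul, Finset.sum_sub_distrib] using this
    by_cases h0 : ∀ i, 0 ≤ y i
    · exact Or.inl ⟨fun i => h0 i, fun i => a1 i⟩
    · right
      push Not at h0
      obtain ⟨i0, hi0⟩ := h0
      have : Nonempty (Fin n) := ⟨i0⟩
      obtain ⟨j, hj⟩ := Finite.exists_min y
      rw [mem_iUnion]
      refine ⟨j, Tj j y, ⟨fun i => ?_, fun i => ?_⟩, Tj_Tj j y⟩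
      · rw [Tj_apply]
        by_cases h : i = j
        · subst h
          simp
          have := hj i0
          linarith
        · simp [h, hj i]
      · rw [Tj_apply]
        by_cases h : i = j
        · subst h
          simp
          linarith [a2 i]
        · simp [h]
          linarith [a3 i j]
  have hI : volume (Icc (0 : Fin n → ℝ) 1) = 1 := by
    rw [Real.volume_Icc_pi]; simp
  calc volume (dpol (Sx n)) ≤ volume (Icc (0 : Fin n → ℝ) 1) +
        ∑ j : Fin n, volume (Tj j '' Icc (0 : Fin n → ℝ) 1) := by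
        refine (measure_mono h1).trans ((measure_union_le _ _).trans ?_)
        gcongr
        exact measure_iUnion_fintype_le _ _
    _ = (n : ℝ≥0∞) + 1 := by
        simp_rw [Measure.addHaar_image_linearMap, det_Tj, hI]
        simp [add_comm]

/-- equality for the simplex -/
theorem makai_simplex {n : ℕ} (hn : 1 ≤ n) :
    volume (Sx n) * volume (dpol (Sx n)) = ENNReal.ofReal ((n + 1) / n.factorial) := by
  apply le_antisymm
  · calc volume (Sx n) * volume (dpol (Sx n)) ≤
        ENNReal.ofReal (1 / n.factorial) * ((n : ℝ≥0∞) + 1) := by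
          gcongr
          · exact vol_Sx_le n
          · exact vol_dpol_Sx_le n
      _ = ENNReal.ofReal ((n + 1) / n.factorial) := by
          rw [show ((n : ℝ≥0∞) + 1) = ENNReal.ofReal (n + 1) by
            rw [ENNReal.ofReal_add (by positivity) (by norm_num), ENNReal.ofReal_natCast,
              ENNReal.ofReal_one], ← ENNReal.ofReal_mul (by positivity)]
          congr 1
          ring
  · exact makai hn (isCompact_Sx n) (convex_Sx n) (interior_Sx n)

end H44.MH
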